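import Mathlib
import Pool.Agent.MP_bcda77_nt.Main

set_option autoImplicit false

namespace Pool.Agent.Results.MP_bcda77_nt.AlmostPerfect

open Pool.Agent.MP_bcda77_nt

/-- The assertion of the question for `m` holds exactly when no almost perfect number `k`
satisfies `p m < 2 k` and `k < 2 ^ m`. -/
theorem result : ∀ m : ℕ, 1 ≤ m →
    (IsLeast {n : ℕ | 2 ≤ n ∧ a n = 2 ^ m} (p m) ↔
      ¬ ∃ k : ℕ, ArithmeticFunction.sigma 1 k + 1 = 2 * k ∧ p m < 2 * k ∧ k < 2 ^ m) :=
  fun _ hm => first_iff hm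

end Pool.Agent.Results.MP_bcda77_nt.AlmostPerfect
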