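import Mathlib
import Pool.Agent.MP_bcda77_nt.h45.Few

set_option autoImplicit false

namespace Pool.Agent.Results.MP_bcda77_nt.FewPrimes

open Pool.Agent.MP_bcda77_nt

/-- The assertion of the question holds for `m` unless `a (p m)` is an almost perfect number
with at least three distinct odd prime divisors. -/
theorem result : ∀ m : ℕ, 1 ≤ m →
    IsLeast {n : ℕ | 2 ≤ n ∧ a n = 2 ^ m} (p m) ∨
      (ArithmeticFunction.sigma 1 (a (p m)) + 1 = 2 * a (p m) ∧
        3 ≤ ((a (p m)).primeFactors.erase 2).card) :=
  fun _ hm => H45.first_or hm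

end Pool.Agent.Results.MP_bcda77_nt.FewPrimes
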