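import Mathlib
import Pool.Agent.MP_bcda77_nt.Main

set_option autoImplicit false

namespace Pool.Agent.Results.MP_bcda77_nt.NoEarlier

open Pool.Agent.MP_bcda77_nt

/-- The value `2 ^ m` is never taken before `p m`. -/
theorem result : ∀ m n : ℕ, 1 ≤ m → 2 ≤ n → n < p m → a n ≠ 2 ^ m :=
  fun _ _ hm h2 hn => no_earlier hm h2 hn

end Pool.Agent.Results.MP_bcda77_nt.NoEarlier
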